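import Mathlib
import Pool.Agent.H350R3.MF.Lift

set_option linter.unusedSectionVars false

namespace H350MF
open MvPolynomial

noncomputable section

variable {σ : Type*} [Fintype σ] [DecidableEq σ]

/-- the combinatorial property of the block system used in the specialisation -/
structure Design (e z t : ℕ) {r : ℕ} (B : Fin r → Finset σ) : Prop where
  inter : ∀ i j, i ≠ j → (B i ∩ B j).card < e
  good : ∀ i, ∀ Z : Finset σ, Z.card ≤ z → ∃ T ⊆ B i, Disjoint T Z ∧ T.card = t ∧
    ∀ j, j ≠ i → Disjoint (B j) T ∨ (B j ∩ (Z ∪ T)).card < e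

/-- blocks meeting `β` in at least `e` elements -/
def act (e : ℕ) {r : ℕ} (B : Fin r → Finset σ) (β : Finset σ) : Finset (Fin r) :=
  Finset.univ.filter fun l => e ≤ (B l ∩ β).card

lemma mem_act {e r : ℕ} {B : Fin r → Finset σ} {β : Finset σ} {l : Fin r} :
    l ∈ act e B β ↔ e ≤ (B l ∩ β).card := by simp [act]

lemma act_mono {e r : ℕ} {B : Fin r → Finset σ} {β γ : Finset σ} (h : β ⊆ γ) :
    act e B β ⊆ act e B γ := by
  intro l hl
  rw [mem_act] at *
  exact hl.trans (Finset.card_le_card (Finset.inter_subset_inter_left h))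

lemma card_act_le {e r : ℕ} {B : Fin r → Finset σ}
    (hB : ∀ i j, i ≠ j → (B i ∩ B j).card < e) (β : Finset σ) :
    (act e B β).card ≤ 2 ^ β.card := by
  rw [← Finset.card_powerset]
  refine Finset.card_le_card_of_injOn (fun l => B l ∩ β) ?_ ?_
  · intro l _
    simp
  · intro l hl l' _ h
    by_contra hne
    have h1 := hB l l' hne
    rw [Finset.mem_coe, mem_act] at hl
    have h2 : B l ∩ β ⊆ B l ∩ B l' := by
      refine Finset.subset_inter Finset.inter_subset_left ?_
      have h3 : B l ∩ β = B l' ∩ β := h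
      rw [h3]; exact Finset.inter_subset_left
    have := Finset.card_le_card h2
    omega

/-- explicit bounds for the sizes of the local supports -/
def bnd (d t M : ℕ) : ℕ → ℕ → ℕ
  | 0, _ => d
  | _ + 1, 0 => d
  | p + 1, c + 1 => bnd d t M (p + 1) c + 2 ^ (bnd d t M (p + 1) c) * (bnd d t M p M + t)
termination_by p c => (p, c)

lemma bnd_zero_right (d t M p : ℕ) : bnd d t M p 0 = d := by
  cases p <;> simp [bnd]

lemma bnd_succ (d t M p c : ℕ) : bnd d t M (p + 1) (c + 1) =
    bnd d t M (p + 1) c + 2 ^ (bnd d t M (p + 1) c) * (bnd d t M p M + t) := by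
  rw [bnd]

lemma bnd_le_succ (d t M p c : ℕ) : bnd d t M p c ≤ bnd d t M p (c + 1) := by
  cases p with
  | zero => simp [bnd]
  | succ p => rw [bnd_succ]; exact Nat.le_add_right _ _

lemma bnd_mono (d t M p : ℕ) {c c' : ℕ} (h : c ≤ c') : bnd d t M p c ≤ bnd d t M p c' :=
  monotone_nat_of_le_succ (f := bnd d t M p) (bnd_le_succ d t M p) h

/-- the total bound -/
def zz (d t : ℕ) : ℕ := ∑ p ∈ Finset.range (d + 1), bnd d t (2 ^ d) p (2 ^ d)

lemma le_zz (d t : ℕ) {p : ℕ} (hp : p ≤ d) : bnd d t (2 ^ d) p (2 ^ d) ≤ zz d t := by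
  unfold zz
  exact Finset.single_le_sum (f := fun p => bnd d t (2 ^ d) p (2 ^ d))
    (fun _ _ => Nat.zero_le _) (Finset.mem_range.2 (by omega))

/-- the local projections after `j` blocks -/
def PJ (d e : ℕ) {r : ℕ} (B : Fin r → Finset σ) (j : ℕ)
    (ρ : Finset σ → MvPolynomial σ ℂ) (Z : Finset σ → Finset σ) : Prop :=
  (∀ β : Finset σ, β.card ≤ d →
    ρ β ∈ Sp {δ | (δ ⊆ Z β ∧ δ.card = β.card) ∧ act e B δ ⊆ act e B β}) ∧
  (∀ β : Finset σ, β.card ≤ d →
    (Z β).card ≤ bnd d d (2 ^ d) (β.card / e) ((act e B β).filter fun l => l.val < j).card) ∧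
  (∀ β : Finset σ, β.card ≤ d → ∀ l : Fin r, l.val < j → (D (bl (B l)) ^ e) (ρ β) = 0) ∧
  (∀ i ≤ d, ∀ F ∈ Sp {β : Finset σ | β.card = i},
    (∀ l : Fin r, l.val < j → (D (bl (B l)) ^ e) F = 0) → F = ∑ β, coeff (ind β) F • ρ β)

lemma PJ_zero (d e : ℕ) {r : ℕ} (B : Fin r → Finset σ) : PJ d e B 0 xm id := by
  refine ⟨?_, ?_, ?_, ?_⟩
  · intro β _
    exact xm_mem_Sp ⟨⟨subset_rfl, rfl⟩, subset_rfl⟩
  · intro β hβ
    have : ((act e B β).filter fun l => l.val < 0) = ∅ := by simp
    rw [this, Finset.card_empty, bnd_zero_right]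
    exact hβ
  · intro β _ l hl; omega
  · intro i _ F hF _
    exact Sp_decomp hF

/-- the local right inverses of the `j`-th constraint -/
lemma PJ_lift {d e r : ℕ} {B : Fin r → Finset σ} (hB : Design e (zz d d) d B) (j : Fin r)
    {ρ : Finset σ → MvPolynomial σ ℂ} {Z : Finset σ → Finset σ} (h : PJ d e B j.val ρ Z)
    (γ : Finset σ) (hγ : γ.card + e ≤ d) :
    ∃ (lam : MvPolynomial σ ℂ) (T : Finset σ), T.card = d ∧
      lam ∈ Sp {δ | (δ ⊆ T ∪ Z γ ∧ δ.card = γ.card + e) ∧ act e B δ ⊆ insert j (act e B γ)} ∧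
      (D (bl (B j)) ^ e) lam = ρ γ ∧ ∀ l : Fin r, l.val < j.val → (D (bl (B l)) ^ e) lam = 0 := by
  obtain ⟨h1, h2, h3, h4⟩ := h
  have hγd : γ.card ≤ d := by omega
  have hZ : (Z γ).card ≤ zz d d := by
    refine (h2 γ hγd).trans ((bnd_mono _ _ _ _ ?_).trans (le_zz d d (p := γ.card / e) ?_))
    · refine (Finset.card_le_card (Finset.filter_subset _ _)).trans
        ((card_act_le hB.inter γ).trans (Nat.pow_le_pow_right (by norm_num) hγd))
    · exact (Nat.div_le_self _ _).trans hγd
  obtain ⟨T, hT1, hT2, hT3, hT4⟩ := hB.good j (Z γ) hZ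
  obtain ⟨F, hF1, hF2, hF3⟩ := local_lift hT1 hT2 (i := γ.card) (e := e) (by omega)
    (P := {δ | (δ ⊆ Z γ ∧ δ.card = γ.card) ∧ act e B δ ⊆ act e B γ})
    (fun β hβ => hβ.1) (h1 γ hγd)
  refine ⟨F, T, hT3, ?_, hF2, ?_⟩
  · refine Sp_mono ?_ hF1
    rintro δ ⟨β, ⟨⟨hβ1, hβ2⟩, hβ3⟩, hδ1, hδ2⟩
    refine ⟨⟨hδ1.trans (Finset.union_subset_union_right hβ1), hδ2⟩, ?_⟩
    intro l hl
    rw [Finset.mem_insert]
    by_cases hlj : l = j
    · exact Or.inl hlj
    · right
      apply hβ3
      rw [mem_act] at hl ⊢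
      rcases hT4 l hlj with hd | hlt
      · refine hl.trans (Finset.card_le_card ?_)
        intro x hx
        rw [Finset.mem_inter] at hx ⊢
        refine ⟨hx.1, ?_⟩
        rcases Finset.mem_union.1 (hδ1 hx.2) with hxT | hxβ
        · exact absurd hxT (Finset.disjoint_left.1 hd hx.1)
        · exact hxβ
      · exfalso
        have : B l ∩ δ ⊆ B l ∩ (Z γ ∪ T) := by
          refine Finset.inter_subset_inter_left (hδ1.trans ?_)
          rw [Finset.union_comm (Z γ) T]
          exact Finset.union_subset_union_right hβ1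
        have := Finset.card_le_card this
        omega
  · intro l hl
    apply hF3
    have hlj : l ≠ j := by rintro rfl; exact lt_irrefl _ hl
    rcases hT4 l hlj with hd | hlt
    · exact Or.inl ⟨hd, h3 γ hγd l hl⟩
    · exact Or.inr hlt

/-- surjectivity of the `j`-th constraint on the common kernel of the previous ones -/
lemma PJ_surj {d e r : ℕ} {B : Fin r → Finset σ} (hB : Design e (zz d d) d B) (j : Fin r)
    {ρ : Finset σ → MvPolynomial σ ℂ} {Z : Finset σ → Finset σ} (h : PJ d e B j.val ρ Z)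
    {i : ℕ} (hi : i + e ≤ d) {H : MvPolynomial σ ℂ} (hH : H ∈ Sp {β : Finset σ | β.card = i})
    (hH0 : ∀ l : Fin r, l.val < j.val → (D (bl (B l)) ^ e) H = 0) :
    ∃ F ∈ Sp {β : Finset σ | β.card = i + e},
      (∀ l : Fin r, l.val < j.val → (D (bl (B l)) ^ e) F = 0) ∧ (D (bl (B j)) ^ e) F = H := by
  classical
  have hlift := fun γ : Finset σ => PJ_lift hB j h γ
  choose! lam T hT hl1 hl2 hl3 using hlift
  have hcard : ∀ γ : Finset σ, coeff (ind γ) H ≠ 0 → γ.card = i := fun γ hγ =>
    coeff_mem_of_Sp hH hγ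
  refine ⟨∑ γ, coeff (ind γ) H • lam γ, ?_, ?_, ?_⟩
  · refine Submodule.sum_mem _ fun γ _ => ?_
    by_cases hγ : coeff (ind γ) H = 0
    · rw [hγ, zero_smul]; exact Submodule.zero_mem _
    · have hc := hcard γ hγ
      refine Submodule.smul_mem _ _ (Sp_mono ?_ (hl1 γ (by omega)))
      rintro δ ⟨⟨_, h2⟩, _⟩
      change δ.card = i + e
      omega
  · intro l hl
    rw [map_sum]
    refine Finset.sum_eq_zero fun γ _ => ?_
    by_cases hγ : coeff (ind γ) H = 0
    · rw [hγ, zero_smul, map_zero]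
    · rw [map_smul, hl3 γ (by have := hcard γ hγ; omega) l hl, smul_zero]
  · rw [map_sum]
    conv_rhs => rw [h.2.2.2 i (by omega) H hH hH0]
    refine Finset.sum_congr rfl fun γ _ => ?_
    by_cases hγ : coeff (ind γ) H = 0
    · rw [hγ, zero_smul, map_zero, zero_smul]
    · rw [map_smul, hl2 γ (by have := hcard γ hγ; omega)]

lemma PJ_succ {d e r : ℕ} (he : 0 < e) {B : Fin r → Finset σ} (hB : Design e (zz d d) d B)
    (j : Fin r) {ρ : Finset σ → MvPolynomial σ ℂ} {Z : Finset σ → Finset σ}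
    (h : PJ d e B j.val ρ Z) :
    ∃ ρ' Z', PJ d e B (j.val + 1) ρ' Z' := by
  classical
  have hlift := fun γ : Finset σ => PJ_lift hB j h γ
  choose! lam T hT hl1 hl2 hl3 using hlift
  obtain ⟨h1, h2, h3, h4⟩ := h
  let Λ : MvPolynomial σ ℂ →ₗ[ℂ] MvPolynomial σ ℂ :=
    ∑ γ : Finset σ, (lcoeff ℂ (ind γ)).smulRight (lam γ)
  have hΛ : ∀ F, Λ F = ∑ γ : Finset σ, coeff (ind γ) F • lam γ := by
    intro F
    simp only [Λ, LinearMap.sum_apply, LinearMap.smulRight_apply, lcoeff_apply]
  let ρ' : Finset σ → MvPolynomial σ ℂ := fun β => ρ β - Λ ((D (bl (B j)) ^ e) (ρ β))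
  let Z' : Finset σ → Finset σ := fun β =>
    if j ∈ act e B β then
      Z β ∪ (Z β).powerset.biUnion fun γ => if γ.card + e = β.card then T γ ∪ Z γ else ∅
    else Z β
  have hcoef : ∀ β : Finset σ, β.card ≤ d → ∀ γ : Finset σ,
      coeff (ind γ) ((D (bl (B j)) ^ e) (ρ β)) ≠ 0 →
      γ.card + e = β.card ∧ j ∈ act e B β ∧ γ ⊆ Z β ∧ act e B γ ⊆ act e B β := by
    intro β hβ γ hγ
    obtain ⟨β', ⟨⟨hb1, hb2⟩, hb3⟩, hg1, hg2, hg3⟩ :=
      coeff_mem_of_Sp (Dpow_Sp (B j) e (h1 β hβ)) hγ
    exact ⟨by omega, hb3 (mem_act.2 hg3), hg1.trans hb1, (act_mono hg1).trans hb3⟩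
  refine ⟨ρ', Z', ?_, ?_, ?_, ?_⟩
  · intro β hβ
    have hZZ : Z β ⊆ Z' β := by
      simp only [Z']
      split_ifs
      · exact Finset.subset_union_left
      · exact subset_rfl
    refine Submodule.sub_mem _ (Sp_mono ?_ (h1 β hβ)) ?_
    · rintro δ ⟨⟨a1, a2⟩, a3⟩
      exact ⟨⟨a1.trans hZZ, a2⟩, a3⟩
    · rw [hΛ]
      refine Submodule.sum_mem _ fun γ _ => ?_
      by_cases hγ : coeff (ind γ) ((D (bl (B j)) ^ e) (ρ β)) = 0
      · rw [hγ, zero_smul]; exact Submodule.zero_mem _
      · obtain ⟨c1, c2, c3, c4⟩ := hcoef β hβ γ hγ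
        refine Submodule.smul_mem _ _ (Sp_mono ?_ (hl1 γ (by omega)))
        rintro δ ⟨⟨a1, a2⟩, a3⟩
        refine ⟨⟨?_, by omega⟩, a3.trans (Finset.insert_subset c2 c4)⟩
        simp only [Z', if_pos c2]
        refine a1.trans (Finset.Subset.trans ?_ Finset.subset_union_right)
        have : T γ ∪ Z γ = (fun γ => if γ.card + e = β.card then T γ ∪ Z γ else ∅) γ := by
          simp only [if_pos c1]
        rw [this]
        exact Finset.subset_biUnion_of_mem
          (fun γ => if γ.card + e = β.card then T γ ∪ Z γ else ∅) (Finset.mem_powerset.2 c3)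
  · intro β hβ
    have hb := h2 β hβ
    by_cases hj : j ∈ act e B β
    · have hcard : e ≤ β.card := by
        rw [mem_act] at hj
        exact hj.trans (Finset.card_le_card Finset.inter_subset_right)
      obtain ⟨p, hp⟩ : ∃ p, β.card / e = p + 1 := by
        have := Nat.div_pos hcard he
        exact ⟨β.card / e - 1, by omega⟩
      have hf : ((act e B β).filter fun l => l.val < j.val + 1).card
          = ((act e B β).filter fun l => l.val < j.val).card + 1 := by
        have : ((act e B β).filter fun l => l.val < j.val + 1)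
            = insert j ((act e B β).filter fun l => l.val < j.val) := by
          ext l
          simp only [Finset.mem_filter, Finset.mem_insert]
          constructor
          · rintro ⟨a, b⟩
            by_cases hlj : l = j
            · exact Or.inl hlj
            · right
              refine ⟨a, ?_⟩
              have : l.val ≠ j.val := fun hh => hlj (Fin.ext hh)
              omega
          · rintro (rfl | ⟨a, b⟩)
            · exact ⟨hj, by omega⟩
            · exact ⟨a, by omega⟩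
        rw [this, Finset.card_insert_of_notMem (by simp)]
      rw [hf, hp, bnd_succ, ← hp]
      simp only [Z', if_pos hj]
      refine (Finset.card_union_le _ _).trans (Nat.add_le_add hb ?_)
      refine (Finset.card_biUnion_le_card_mul _ _ (bnd d d (2 ^ d) p (2 ^ d) + d) ?_).trans ?_
      · intro γ _
        by_cases hc : γ.card + e = β.card
        · simp only [if_pos hc]
          have hγd : γ.card ≤ d := by omega
          have hp' : γ.card / e = p := by
            rw [← hc, Nat.add_div_right _ he] at hp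
            omega
          refine (Finset.card_union_le _ _).trans ?_
          rw [hT γ (by omega), Nat.add_comm]
          refine Nat.add_le_add_right ((h2 γ hγd).trans ?_) _
          rw [hp']
          refine bnd_mono _ _ _ _ ?_
          refine (Finset.card_le_card (Finset.filter_subset _ _)).trans
            ((card_act_le hB.inter γ).trans (Nat.pow_le_pow_right (by norm_num) hγd))
        · simp only [if_neg hc, Finset.card_empty]; omega
      · rw [Finset.card_powerset]
        exact Nat.mul_le_mul_right _ (Nat.pow_le_pow_right (by norm_num) hb)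
    · have hf : ((act e B β).filter fun l => l.val < j.val + 1)
          = ((act e B β).filter fun l => l.val < j.val) := by
        ext l
        simp only [Finset.mem_filter]
        constructor
        · rintro ⟨a, b⟩
          refine ⟨a, ?_⟩
          have : l.val ≠ j.val := fun hh => hj (by rwa [← Fin.ext hh])
          omega
        · rintro ⟨a, b⟩
          exact ⟨a, by omega⟩
      simp only [Z', if_neg hj]
      rw [hf]
      exact hb
  · intro β hβ l hl
    change (D (bl (B l)) ^ e) (ρ β - Λ ((D (bl (B j)) ^ e) (ρ β))) = 0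
    rw [map_sub, hΛ, map_sum]
    by_cases hlj : l.val < j.val
    · rw [h3 β hβ l hlj, zero_sub, neg_eq_zero]
      refine Finset.sum_eq_zero fun γ _ => ?_
      by_cases hγ : coeff (ind γ) ((D (bl (B j)) ^ e) (ρ β)) = 0
      · rw [hγ, zero_smul, map_zero]
      · obtain ⟨c1, _⟩ := hcoef β hβ γ hγ
        rw [map_smul, hl3 γ (by omega) l hlj, smul_zero]
    · have hlj' : l = j := Fin.ext (by omega)
      subst hlj'
      rw [sub_eq_zero]
      have hF : (D (bl (B l)) ^ e) (ρ β) ∈ Sp {γ : Finset σ | γ.card = β.card - e} := by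
        refine Sp_mono ?_ (Dpow_Sp (B l) e (h1 β hβ))
        rintro γ ⟨β', ⟨⟨_, a2⟩, _⟩, _, a4, _⟩
        change γ.card = β.card - e
        omega
      conv_lhs => rw [h4 (β.card - e) (by omega) _ hF (by
        intro l' hl'
        rw [Dpow_comm_apply, h3 β hβ l' hl', map_zero])]
      refine Finset.sum_congr rfl fun γ _ => ?_
      by_cases hγ : coeff (ind γ) ((D (bl (B l)) ^ e) (ρ β)) = 0
      · rw [hγ, zero_smul, zero_smul, map_zero]
      · obtain ⟨c1, _⟩ := hcoef β hβ γ hγ
        rw [map_smul, hl2 γ (by omega)]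
  · intro i hi F hF hF0
    have h5 := h4 i hi F hF fun l hl => hF0 l (by omega)
    have h6 : ∑ β, coeff (ind β) F • ρ' β
        = (∑ β, coeff (ind β) F • ρ β) - Λ ((D (bl (B j)) ^ e) (∑ β, coeff (ind β) F • ρ β)) := by
      rw [map_sum, map_sum, ← Finset.sum_sub_distrib]
      refine Finset.sum_congr rfl fun β _ => ?_
      rw [map_smul, map_smul, ← smul_sub]
    rw [h6, ← h5, hF0 j (by omega), map_zero, sub_zero]

lemma exists_PJ {d e r : ℕ} (he : 0 < e) {B : Fin r → Finset σ}
    (hB : Design e (zz d d) d B) : ∀ j ≤ r, ∃ ρ Z, PJ d e B j ρ Z := by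
  intro j
  induction j with
  | zero => intro _; exact ⟨xm, id, PJ_zero d e B⟩
  | succ j ih =>
    intro hj
    obtain ⟨ρ, Z, h⟩ := ih (by omega)
    exact PJ_succ he hB ⟨j, by omega⟩ h

/-- surjectivity for a design -/
theorem design_surj {d e r : ℕ} (he : 0 < e) {B : Fin r → Finset σ}
    (hB : Design e (zz d d) d B) (j : Fin r)
    {i : ℕ} (hi : i + e ≤ d) {H : MvPolynomial σ ℂ} (hH : H ∈ Sp {β : Finset σ | β.card = i})
    (hH0 : ∀ l : Fin r, l.val < j.val → (D (bl (B l)) ^ e) H = 0) :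
    ∃ F ∈ Sp {β : Finset σ | β.card = i + e},
      (∀ l : Fin r, l.val < j.val → (D (bl (B l)) ^ e) F = 0) ∧ (D (bl (B j)) ^ e) F = H := by
  obtain ⟨ρ, Z, h⟩ := exists_PJ he hB j.val j.2.le
  exact PJ_surj hB j h hi hH hH0

end
end H350MF
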