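import Mathlib
import Pool.Agent.H350R3.MF.Proj

set_option linter.unusedSectionVars false

namespace H350MF

noncomputable section

section deletion
variable {U : Type*} [Fintype U] [DecidableEq U]

lemma count_col (Q : ℕ) [NeZero Q] (A : Finset U) :
    (((Finset.univ : Finset (U → Fin Q)).filter fun χ => ∀ u ∈ A, χ u = 0).card : ℝ)
      = (Q : ℝ) ^ Fintype.card U * ((Q : ℝ)⁻¹) ^ A.card := by
  have h1 : ((Finset.univ : Finset (U → Fin Q)).filter fun χ => ∀ u ∈ A, χ u = 0)
      = Fintype.piFinset (fun u => if u ∈ A then ({0} : Finset (Fin Q)) else Finset.univ) := by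
    ext χ
    simp only [Finset.mem_filter, Finset.mem_univ, true_and, Fintype.mem_piFinset]
    constructor
    · intro h u
      by_cases hu : u ∈ A
      · rw [if_pos hu, Finset.mem_singleton]; exact h u hu
      · rw [if_neg hu]; exact Finset.mem_univ _
    · intro h u hu
      have := h u
      rwa [if_pos hu, Finset.mem_singleton] at this
  rw [h1, Fintype.card_piFinset]
  have h2 : ∀ u : U, (if u ∈ A then ({0} : Finset (Fin Q)) else Finset.univ).card
      = if u ∈ A then 1 else Q := by
    intro u; split_ifs <;> simp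
  simp only [h2]
  rw [Finset.prod_ite, Finset.prod_const_one, one_mul, Finset.prod_const]
  have h3 : (Finset.univ.filter fun u => u ∉ A) = Aᶜ := by ext u; simp
  rw [h3, Finset.card_compl]
  have hQ : (Q : ℝ) ≠ 0 := Nat.cast_ne_zero.2 (NeZero.ne Q)
  push_cast
  rw [pow_sub₀ _ hQ (Finset.card_le_univ A), inv_pow]

theorem deletion (Q : ℕ) [NeZero Q] (C : Finset (Finset U)) (hne : ∀ A ∈ C, A.Nonempty) :
    ∃ B : Finset U, (∀ A ∈ C, ¬ A ⊆ B) ∧
      (Fintype.card U : ℝ) / Q - ∑ A ∈ C, ((Q : ℝ)⁻¹) ^ A.card ≤ B.card := by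
  classical
  have hQ : (Q : ℝ) ≠ 0 := Nat.cast_ne_zero.2 (NeZero.ne Q)
  let B0 : (U → Fin Q) → Finset U := fun χ => Finset.univ.filter fun u => χ u = 0
  have hsub : ∀ (χ : U → Fin Q) (A : Finset U), A ⊆ B0 χ ↔ ∀ u ∈ A, χ u = 0 := by
    intro χ A
    simp only [B0, Finset.subset_iff, Finset.mem_filter, Finset.mem_univ, true_and]
  have hcnt : ∀ A : Finset U, ∑ χ : U → Fin Q, (if A ⊆ B0 χ then (1 : ℝ) else 0)
      = (Q : ℝ) ^ Fintype.card U * ((Q : ℝ)⁻¹) ^ A.card := by
    intro A
    rw [← count_col, Finset.sum_boole]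
    simp only [hsub]
  have hB0 : ∀ χ : U → Fin Q, ((B0 χ).card : ℝ) = ∑ u : U, if {u} ⊆ B0 χ then (1 : ℝ) else 0 := by
    intro χ
    rw [Finset.sum_boole]
    congr 2
    ext u
    simp
  have hsum : ∑ χ : U → Fin Q, (((B0 χ).card : ℝ) - ∑ A ∈ C, if A ⊆ B0 χ then (1 : ℝ) else 0)
      = (Q : ℝ) ^ Fintype.card U *
        ((Fintype.card U : ℝ) / Q - ∑ A ∈ C, ((Q : ℝ)⁻¹) ^ A.card) := by
    rw [Finset.sum_sub_distrib, mul_sub]
    congr 1
    · simp only [hB0]
      rw [Finset.sum_comm]
      simp only [hcnt, Finset.card_singleton, pow_one, Finset.sum_const, Finset.card_univ,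
        nsmul_eq_mul]
      ring
    · rw [Finset.sum_comm, Finset.mul_sum]
      exact Finset.sum_congr rfl fun A _ => hcnt A
  obtain ⟨χ, -, hχ⟩ : ∃ χ ∈ (Finset.univ : Finset (U → Fin Q)),
      (Fintype.card U : ℝ) / Q - ∑ A ∈ C, ((Q : ℝ)⁻¹) ^ A.card ≤
        (((B0 χ).card : ℝ) - ∑ A ∈ C, if A ⊆ B0 χ then (1 : ℝ) else 0) := by
    refine Finset.exists_le_of_sum_le ⟨fun _ => 0, Finset.mem_univ _⟩ ?_
    rw [hsum, Finset.sum_const, Finset.card_univ, Fintype.card_fun, Fintype.card_fin,
      nsmul_eq_mul]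
    push_cast
    exact le_rfl
  rw [Finset.sum_boole] at hχ
  let pick : Finset U → Finset U := fun A => if h : A.Nonempty then {h.choose} else ∅
  refine ⟨B0 χ \ (C.filter fun A => A ⊆ B0 χ).biUnion pick, ?_, ?_⟩
  · intro A hA hsubA
    have h1 : A ⊆ B0 χ := hsubA.trans Finset.sdiff_subset
    have h2 := hsubA (hne A hA).choose_spec
    rw [Finset.mem_sdiff] at h2
    refine h2.2 (Finset.mem_biUnion.2 ⟨A, Finset.mem_filter.2 ⟨hA, h1⟩, ?_⟩)
    simp only [pick, dif_pos (hne A hA), Finset.mem_singleton]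
  · refine hχ.trans ?_
    have h1 := Finset.le_card_sdiff ((C.filter fun A => A ⊆ B0 χ).biUnion pick) (B0 χ)
    have h2 : ((C.filter fun A => A ⊆ B0 χ).biUnion pick).card
        ≤ (C.filter fun A => A ⊆ B0 χ).card * 1 := by
      refine Finset.card_biUnion_le_card_mul _ _ _ fun A _ => ?_
      simp only [pick]
      split_ifs <;> simp
    have h3 : (B0 χ).card ≤ (B0 χ \ (C.filter fun A => A ⊆ B0 χ).biUnion pick).card
        + (C.filter fun A => A ⊆ B0 χ).card := by omega
    have h4 : ((B0 χ).card : ℝ) ≤ ((B0 χ \ (C.filter fun A => A ⊆ B0 χ).biUnion pick).card : ℝ)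
        + ((C.filter fun A => A ⊆ B0 χ).card : ℝ) := by exact_mod_cast h3
    linarith

end deletion

section blocks

variable {σ : Type*} [Fintype σ] [DecidableEq σ] {k n0 : ℕ} (ι : Fin k × Fin n0 ↪ σ)

/-- the block of a function -/
def Sb (f : Fin k → Fin n0) : Finset σ := Finset.univ.image fun j => ι (j, f j)

lemma card_Sb (f : Fin k → Fin n0) : (Sb ι f).card = k := by
  unfold Sb
  rw [Finset.card_image_of_injective, Finset.card_univ, Fintype.card_fin]
  intro j j' h
  have := ι.injective h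
  exact (Prod.ext_iff.1 this).1

/-- number of the blocks meeting a set in at least `e` elements -/
lemma count_bad (e : ℕ) (W : Finset σ) :
    ((Finset.univ : Finset (Fin k → Fin n0)).filter fun g => e ≤ (Sb ι g ∩ W).card).card
      ≤ 2 ^ k * W.card ^ e * n0 ^ (k - e) := by
  classical
  have h1 : ((Finset.univ : Finset (Fin k → Fin n0)).filter fun g => e ≤ (Sb ι g ∩ W).card)
      ⊆ ((Finset.univ : Finset (Fin k)).powersetCard e).biUnion fun J =>
        Fintype.piFinset (fun j => if j ∈ J then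
          (Finset.univ.filter fun x => ι (j, x) ∈ W) else Finset.univ) := by
    intro g hg
    rw [Finset.mem_filter] at hg
    have h2 : Sb ι g ∩ W = (Finset.univ.filter fun j => ι (j, g j) ∈ W).image
        fun j => ι (j, g j) := by
      ext x
      simp only [Sb, Finset.mem_inter, Finset.mem_image, Finset.mem_univ, true_and,
        Finset.mem_filter]
      constructor
      · rintro ⟨⟨j, rfl⟩, hx⟩; exact ⟨j, hx, rfl⟩
      · rintro ⟨j, hx, rfl⟩; exact ⟨⟨j, rfl⟩, hx⟩
    have h3 : e ≤ (Finset.univ.filter fun j => ι (j, g j) ∈ W).card := by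
      refine hg.2.trans ?_
      rw [h2]; exact Finset.card_image_le
    obtain ⟨J, hJ1, hJ2⟩ := Finset.exists_subset_card_eq h3
    rw [Finset.mem_biUnion]
    refine ⟨J, Finset.mem_powersetCard.2 ⟨Finset.subset_univ _, hJ2⟩, ?_⟩
    rw [Fintype.mem_piFinset]
    intro j
    by_cases hj : j ∈ J
    · rw [if_pos hj, Finset.mem_filter]
      exact ⟨Finset.mem_univ _, (Finset.mem_filter.1 (hJ1 hj)).2⟩
    · rw [if_neg hj]; exact Finset.mem_univ _
  refine (Finset.card_le_card h1).trans ?_
  refine (Finset.card_biUnion_le_card_mul _ _ (W.card ^ e * n0 ^ (k - e)) ?_).trans ?_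
  · intro J hJ
    rw [Finset.mem_powersetCard] at hJ
    rw [Fintype.card_piFinset]
    have h2 : ∀ j : Fin k, (if j ∈ J then (Finset.univ.filter fun x => ι (j, x) ∈ W)
        else (Finset.univ : Finset (Fin n0))).card ≤ if j ∈ J then W.card else n0 := by
      intro j
      split_ifs with hj
      · refine Finset.card_le_card_of_injOn (fun x => ι (j, x)) ?_ ?_
        · intro x hx
          simpa using hx
        · intro x _ y _ h
          have := ι.injective h
          exact (Prod.ext_iff.1 this).2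
      · simp
    refine (Finset.prod_le_prod' fun j _ => h2 j).trans ?_
    rw [Finset.prod_ite, Finset.prod_const, Finset.prod_const]
    have h3 : (Finset.univ.filter fun j => j ∈ J) = J := by ext j; simp
    have h4 : (Finset.univ.filter fun j => j ∉ J) = Jᶜ := by ext j; simp
    rw [h3, h4, Finset.card_compl, hJ.2, Fintype.card_fin]
  · rw [Finset.card_powersetCard, Finset.card_univ, Fintype.card_fin, mul_assoc]
    exact Nat.mul_le_mul_right _ (Nat.choose_le_two_pow k e)

end blocks

end
end H350MF
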