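import Mathlib
import Pool.Agent.H350R3.MF.Num

set_option linter.unusedSectionVars false

namespace H350MF
open MvPolynomial

noncomputable section

/-- functions given by polynomials -/
def IsPoly {ι : Type*} (f : (ι → ℂ) → ℂ) : Prop := ∃ p : MvPolynomial ι ℂ, ∀ x, eval x p = f x

namespace IsPoly
variable {ι : Type*} {f g : (ι → ℂ) → ℂ}

lemma const (c : ℂ) : IsPoly (fun _ : ι → ℂ => c) := ⟨C c, fun x => by simp⟩

lemma coord (i : ι) : IsPoly (fun x : ι → ℂ => x i) := ⟨X i, fun x => by simp⟩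

lemma mul (hf : IsPoly f) (hg : IsPoly g) : IsPoly (fun x => f x * g x) := by
  obtain ⟨p, hp⟩ := hf
  obtain ⟨q, hq⟩ := hg
  exact ⟨p * q, fun x => by simp [hp, hq]⟩

lemma sum {κ : Type*} (s : Finset κ) {f : κ → (ι → ℂ) → ℂ} (hf : ∀ k ∈ s, IsPoly (f k)) :
    IsPoly (fun x => ∑ k ∈ s, f k x) := by
  classical
  choose! p hp using hf
  refine ⟨∑ k ∈ s, p k, fun x => ?_⟩
  rw [map_sum]
  exact Finset.sum_congr rfl fun k hk => hp k hk x

end IsPoly

theorem generic_ker {ι V W : Type*} [AddCommGroup V] [Module ℂ V] [FiniteDimensional ℂ V]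
    [AddCommGroup W] [Module ℂ W] (L : (ι → ℂ) → V →ₗ[ℂ] W)
    (hL : ∀ (x : V) (ψ : W →ₗ[ℂ] ℂ), IsPoly (fun P => ψ (L P x))) (P0 : ι → ℂ) :
    ∃ Φ : MvPolynomial ι ℂ, Φ ≠ 0 ∧ ∀ P, eval P Φ ≠ 0 →
      Module.finrank ℂ (LinearMap.ker (L P)) ≤ Module.finrank ℂ (LinearMap.ker (L P0)) := by
  classical
  let ρ := Module.finrank ℂ (LinearMap.range (L P0))
  let B := Module.finBasis ℂ (LinearMap.range (L P0))
  have hb : ∀ a : Fin ρ, ∃ x : V, L P0 x = (B a : W) := fun a => (B a).2
  choose b hb using hb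
  let i : (Fin ρ →₀ ℂ) →ₗ[ℂ] W := (LinearMap.range (L P0)).subtype ∘ₗ B.repr.symm.toLinearMap
  have hi : LinearMap.ker i = ⊥ := by
    rw [LinearMap.ker_eq_bot]
    exact (Submodule.injective_subtype _).comp B.repr.symm.injective
  obtain ⟨g, hg⟩ := LinearMap.exists_leftInverse_of_injective i hi
  have hgB : ∀ a, g (B a : W) = Finsupp.single a 1 := by
    intro a
    have : i (Finsupp.single a 1) = (B a : W) := by
      simp [i]
    rw [← this]
    exact congrArg (fun T : (Fin ρ →₀ ℂ) →ₗ[ℂ] (Fin ρ →₀ ℂ) => T (Finsupp.single a 1)) hg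
  let ψ : Fin ρ → W →ₗ[ℂ] ℂ := fun a => Finsupp.lapply a ∘ₗ g
  have hψ : ∀ a c, ∃ p : MvPolynomial ι ℂ, ∀ P, eval P p = ψ a (L P (b c)) := fun a c =>
    hL (b c) (ψ a)
  choose p hp using hψ
  let Φ : MvPolynomial ι ℂ := (Matrix.of p).det
  have hΦ : ∀ P, eval P Φ = (Matrix.of fun a c => ψ a (L P (b c))).det := by
    intro P
    rw [RingHom.map_det]
    congr 1
    ext a c
    simp [hp]
  refine ⟨Φ, ?_, ?_⟩
  · intro h0
    have h1 := hΦ P0
    have h2 : (Matrix.of fun a c => ψ a (L P0 (b c))) = (1 : Matrix (Fin ρ) (Fin ρ) ℂ) := by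
      ext a c
      simp only [Matrix.of_apply, ψ, LinearMap.comp_apply, hb, hgB, Finsupp.lapply_apply,
        Matrix.one_apply, Finsupp.single_apply]
      by_cases h : a = c
      · simp [h]
      · simp [h, Ne.symm h]
    rw [h2, Matrix.det_one, h0, map_zero] at h1
    exact zero_ne_one h1
  · intro P hP
    rw [hΦ] at hP
    have hlin : LinearIndependent ℂ (fun c => L P (b c)) := by
      have h1 := Matrix.linearIndependent_cols_of_det_ne_zero hP
      let G : W →ₗ[ℂ] (Fin ρ → ℂ) := LinearMap.pi ψ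
      refine LinearIndependent.of_comp G ?_
      exact h1
    have h2 : ρ ≤ Module.finrank ℂ (LinearMap.range (L P)) := by
      have h3 : LinearIndependent ℂ (fun c => (⟨L P (b c), ⟨b c, rfl⟩⟩ : LinearMap.range (L P))) := by
        refine LinearIndependent.of_comp (LinearMap.range (L P)).subtype ?_
        exact hlin
      simpa using h3.fintype_card_le_finrank
    have h4 := LinearMap.finrank_range_add_finrank_ker (L P)
    have h5 := LinearMap.finrank_range_add_finrank_ker (L P0)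
    change ρ + _ = _ at h5
    omega

variable {σ : Type*} [Fintype σ] [DecidableEq σ]

/-- `P ↦ ψ (D (P_k) ^ e F)` is a polynomial function -/
lemma isPoly_Dpow {κ : Type*} (k : κ) (e : ℕ) : ∀ (F : MvPolynomial σ ℂ)
    (ψ : MvPolynomial σ ℂ →ₗ[ℂ] ℂ),
    IsPoly (fun P : κ × σ → ℂ => ψ ((D (fun i => P (k, i)) ^ e) F)) := by
  induction e with
  | zero => intro F ψ; simpa using IsPoly.const _
  | succ e ih =>
    intro F ψ
    have h1 : (fun P : κ × σ → ℂ => ψ ((D (fun i => P (k, i)) ^ (e + 1)) F))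
        = fun P => ∑ i : σ, P (k, i) * ψ ((D (fun i => P (k, i)) ^ e) (pderiv i F)) := by
      funext P
      rw [pow_succ, Module.End.mul_apply, D_apply, map_sum, map_sum]
      refine Finset.sum_congr rfl fun i _ => ?_
      rw [map_smul, map_smul, smul_eq_mul]
    rw [h1]
    exact IsPoly.sum _ fun i _ => (IsPoly.coord (k, i)).mul (ih _ ψ)

/-- the list of the constraints attached to the points `P_k` with exponent `e` -/
def ptList {r : ℕ} (e : ℕ) (P : Fin r × σ → ℂ) : List ((σ → ℂ) × ℕ) :=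
  List.ofFn fun k => (fun i => P (k, i), e)

lemma mem_ptList {r : ℕ} {e : ℕ} (P : Fin r × σ → ℂ) (k : Fin r) :
    ((fun i => P (k, i)), e) ∈ ptList e P := by
  unfold ptList
  rw [List.mem_ofFn']
  exact ⟨k, rfl⟩

lemma exists_of_mem_ptList {r : ℕ} {e : ℕ} {P : Fin r × σ → ℂ} {c : (σ → ℂ) × ℕ}
    (h : c ∈ ptList e P) : ∃ k : Fin r, c = ((fun i => P (k, i)), e) := by
  unfold ptList at h
  rw [List.mem_ofFn'] at h
  obtain ⟨k, hk⟩ := h
  exact ⟨k, hk.symm⟩

lemma finrank_comap_K (l : List ((σ → ℂ) × ℕ)) (j : ℕ) :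
    Module.finrank ℂ (Submodule.comap (Rj σ j).subtype (K l j)) = Module.finrank ℂ (K l j) :=
  LinearEquiv.finrank_eq (Submodule.comapSubtypeEquivOfLe (K_le l j))

theorem generic_K {r : ℕ} (e j : ℕ) (P0 : Fin r × σ → ℂ) :
    ∃ Φ : MvPolynomial (Fin r × σ) ℂ, Φ ≠ 0 ∧ ∀ P, eval P Φ ≠ 0 →
      Module.finrank ℂ (K (ptList e P) j) ≤ Module.finrank ℂ (K (ptList e P0) j) := by
  let L : (Fin r × σ → ℂ) → (Rj σ j) →ₗ[ℂ] (Fin r → MvPolynomial σ ℂ) := fun P =>
    LinearMap.pi fun k => (D (fun i => P (k, i)) ^ e).domRestrict (Rj σ j)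
  have hL : ∀ (x : Rj σ j) (ψ : (Fin r → MvPolynomial σ ℂ) →ₗ[ℂ] ℂ),
      IsPoly (fun P => ψ (L P x)) := by
    intro x ψ
    have h1 : (fun P => ψ (L P x)) = fun P : Fin r × σ → ℂ =>
        ∑ k : Fin r, (ψ ∘ₗ LinearMap.single ℂ (fun _ => MvPolynomial σ ℂ) k)
          ((D (fun i => P (k, i)) ^ e) x) := by
      funext P
      conv_lhs => rw [← LinearMap.sum_single_apply (v := L P x)]
      rw [map_sum]
      rfl
    rw [h1]
    exact IsPoly.sum _ fun k _ => isPoly_Dpow k e _ _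
  obtain ⟨Φ, h0, hΦ⟩ := generic_ker L hL P0
  have hker : ∀ P, Module.finrank ℂ (LinearMap.ker (L P)) =
      Module.finrank ℂ (K (ptList e P) j) := by
    intro P
    have h3 : LinearMap.ker (L P) = Submodule.comap (Rj σ j).subtype (K (ptList e P) j) := by
      ext F
      rw [LinearMap.mem_ker, Submodule.mem_comap, Submodule.subtype_apply, mem_K]
      constructor
      · intro h
        refine ⟨F.2, ?_⟩
        intro c hc
        obtain ⟨k, rfl⟩ := exists_of_mem_ptList hc
        exact congrFun h k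
      · rintro ⟨_, h⟩
        funext k
        exact h (fun i => P (k, i), e) (mem_ptList P k)
    rw [h3, finrank_comap_K]
  exact ⟨Φ, h0, fun P hP => by rw [← hker P, ← hker P0]; exact hΦ P hP⟩

/-- one nonzero polynomial for all degrees up to `d` -/
theorem generic_K_all {r : ℕ} (e d : ℕ) (P0 : Fin r × σ → ℂ) :
    ∃ Φ : MvPolynomial (Fin r × σ) ℂ, Φ ≠ 0 ∧ ∀ P, eval P Φ ≠ 0 → ∀ j ≤ d,
      Module.finrank ℂ (K (ptList e P) j) ≤ Module.finrank ℂ (K (ptList e P0) j) := by
  choose Φ h0 hΦ using fun j => generic_K (σ := σ) e j P0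
  refine ⟨∏ j ∈ Finset.range (d + 1), Φ j, Finset.prod_ne_zero_iff.2 fun j _ => h0 j, ?_⟩
  intro P hP j hj
  refine hΦ j P fun h => hP ?_
  rw [map_prod]
  exact Finset.prod_eq_zero (Finset.mem_range.2 (by omega)) h

lemma E_closed (g : ℕ → ℤ) {e : ℕ} (he : 0 < e) (r : ℕ) : ∀ j, E g (List.replicate r e) j =
    ∑ l ∈ Finset.range (j / e + 1), (-1 : ℤ) ^ l * (r.choose l : ℤ) * g (j - l * e) := by
  induction r with
  | zero =>
    intro j
    rw [Finset.sum_eq_single 0]
    · simp [E]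
    · intro l _ hl
      rw [Nat.choose_eq_zero_of_lt (by omega)]; simp
    · simp
  | succ r ih =>
    intro j
    rw [List.replicate_succ]
    simp only [E]
    rw [ih j]
    have h1 : ∀ l, (-1 : ℤ) ^ l * ((r + 1).choose l : ℤ) * g (j - l * e)
        = (-1 : ℤ) ^ l * (r.choose l : ℤ) * g (j - l * e)
          + (-1 : ℤ) ^ l * ((if l = 0 then 0 else r.choose (l - 1) : ℕ) : ℤ) * g (j - l * e) := by
      intro l
      rcases l with _ | l
      · simp
      · rw [Nat.choose_succ_succ]; simp; ring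
    rw [Finset.sum_congr rfl fun l _ => h1 l, Finset.sum_add_distrib, Finset.sum_range_succ']
    have h2 : ∑ l ∈ Finset.range (j / e + 1), (-1 : ℤ) ^ l *
        ((if l = 0 then 0 else r.choose (l - 1) : ℕ) : ℤ) * g (j - l * e)
        = - (if e ≤ j then E g (List.replicate r e) (j - e) else 0) := by
      rw [Finset.sum_range_succ']
      simp only [Nat.add_eq_zero_iff, one_ne_zero, and_false, if_false, Nat.add_sub_cancel,
        if_true, Nat.cast_zero, mul_zero, zero_mul, add_zero]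
      by_cases hj : e ≤ j
      · rw [if_pos hj, ih (j - e)]
        have h3 : (j - e) / e + 1 = j / e := by
          conv_rhs => rw [← Nat.sub_add_cancel hj]
          exact (Nat.add_div_right _ he).symm
        rw [h3, ← Finset.sum_neg_distrib]
        refine Finset.sum_congr rfl fun l _ => ?_
        rw [Nat.sub_sub, Nat.add_comm e, ← Nat.succ_mul]
        ring
      · rw [if_neg hj, Nat.div_eq_of_lt (by omega)]; simp
    rw [h2]
    ring

end
end H350MF
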