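import Mathlib
import Pool.Agent.H350R3.MF.Proj
import Pool.Agent.H350R3.MF.Gen

set_option linter.unusedSectionVars false

namespace H350MF
open MvPolynomial

noncomputable section

variable {σ : Type*} [Fintype σ] [DecidableEq σ]

/-- antiderivative in the variable `i` -/
def antiD (i : σ) : MvPolynomial σ ℂ →ₗ[ℂ] MvPolynomial σ ℂ :=
  (basisMonomials σ ℂ).constr ℂ fun m => monomial (m + Finsupp.single i 1) (((m i : ℂ) + 1)⁻¹)

lemma antiD_monomial (i : σ) (m : σ →₀ ℕ) (a : ℂ) :
    antiD i (monomial m a) = monomial (m + Finsupp.single i 1) (a * ((m i : ℂ) + 1)⁻¹) := by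
  have h1 : (monomial m a : MvPolynomial σ ℂ) = a • basisMonomials σ ℂ m := by
    rw [coe_basisMonomials, smul_monomial, smul_eq_mul, mul_one]
  rw [h1, map_smul]
  unfold antiD
  rw [Module.Basis.constr_basis, smul_monomial, smul_eq_mul]

lemma pderiv_antiD (i : σ) (F : MvPolynomial σ ℂ) : pderiv i (antiD i F) = F := by
  induction F using MvPolynomial.induction_on' with
  | add p q hp hq => rw [map_add, map_add, hp, hq]
  | monomial m a =>
    rw [antiD_monomial, pderiv_monomial, add_tsub_cancel_right]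
    congr 1
    have h1 : (m + Finsupp.single i 1 : σ →₀ ℕ) i = m i + 1 := by simp
    rw [h1]
    push_cast
    have h2 : (m i : ℂ) + 1 ≠ 0 := Nat.cast_add_one_ne_zero _
    field_simp

lemma pderiv_antiD_ne {i k : σ} (h : k ≠ i) (F : MvPolynomial σ ℂ) :
    pderiv k (antiD i F) = antiD i (pderiv k F) := by
  induction F using MvPolynomial.induction_on' with
  | add p q hp hq => rw [map_add, map_add, hp, hq, map_add, map_add]
  | monomial m a =>
    rw [antiD_monomial, pderiv_monomial, pderiv_monomial, antiD_monomial]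
    have h1 : (m + Finsupp.single i 1 : σ →₀ ℕ) k = m k := by simp [Ne.symm h]
    have h2 : (m - Finsupp.single k 1 : σ →₀ ℕ) i = m i := by simp [h]
    rw [h1, h2]
    by_cases hm : m k = 0
    · simp [hm]
    · have h3 : m + Finsupp.single i 1 - Finsupp.single k 1
          = m - Finsupp.single k 1 + Finsupp.single i 1 := by
        ext x
        simp only [Finsupp.tsub_apply, Finsupp.add_apply, Finsupp.single_apply]
        by_cases hx : k = x
        · subst hx; simp [Ne.symm h]
        · simp [hx]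
      rw [h3]
      congr 1
      ring

lemma antiD_hom {i : σ} {j : ℕ} {F : MvPolynomial σ ℂ} (h : F ∈ Rj σ j) :
    antiD i F ∈ Rj σ (j + 1) := by
  rw [← F.support_sum_monomial_coeff, map_sum]
  refine Submodule.sum_mem _ fun m hm => ?_
  rw [antiD_monomial, mem_homogeneousSubmodule]
  refine isHomogeneous_monomial _ ?_
  rw [mem_homogeneousSubmodule] at h
  have h1 : m.degree = j := by
    by_contra hne
    exact (mem_support_iff.1 hm) (h.coeff_eq_zero hne)
  rw [map_add, h1, Finsupp.degree_single]

/-- the constraints `∂_i ^ 2` -/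
def coordList (s : List σ) : List ((σ → ℂ) × ℕ) := s.map fun i => (Pi.single i 1, 2)

lemma D_single_sq (i : σ) (F : MvPolynomial σ ℂ) :
    (D (Pi.single i 1) ^ 2) F = pderiv i (pderiv i F) := by
  rw [pow_two, Module.End.mul_apply, D_single, D_single]

lemma EQ_coord (d : ℕ) (s : List σ) (hs : s.Nodup) : EQ d (coordList s) := by
  induction s with
  | nil => exact EQ_nil d
  | cons i s ih =>
    rw [List.nodup_cons] at hs
    refine EQ_cons_of_surj (c := (Pi.single i 1, 2)) (ih hs.2) ?_
    intro j _ H hH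
    refine ⟨antiD i (antiD i H), ⟨antiD_hom (antiD_hom hH.1), ?_⟩, ?_⟩
    · intro c hc
      obtain ⟨k, hk, rfl⟩ := List.mem_map.1 hc
      have hki : k ≠ i := by rintro rfl; exact hs.1 hk
      have h1 := hH.2 (Pi.single k 1, 2) hc
      rw [D_single_sq] at h1 ⊢
      rw [pderiv_antiD_ne hki, pderiv_antiD_ne hki, pderiv_antiD_ne hki, pderiv_antiD_ne hki, h1,
        map_zero, map_zero]
    · change (D (Pi.single i 1) ^ 2) (antiD i (antiD i H)) = H
      rw [D_single_sq, pderiv_antiD, pderiv_antiD]

lemma coeff_eq_zero_of_sq {F : MvPolynomial σ ℂ} {i : σ} (h : pderiv i (pderiv i F) = 0)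
    {m : σ →₀ ℕ} (hm : 2 ≤ m i) : coeff m F = 0 := by
  have h1 := congrArg (coeff (m - Finsupp.single i 2)) h
  rw [coeff_pderiv, coeff_pderiv, coeff_zero] at h1
  have h2 : m - Finsupp.single i 2 + Finsupp.single i 1 + Finsupp.single i 1 = m := by
    ext x
    simp only [Finsupp.tsub_apply, Finsupp.add_apply, Finsupp.single_apply]
    by_cases hx : i = x
    · subst hx; simp; omega
    · simp [hx]
  rw [h2] at h1
  have h3 : (((m - Finsupp.single i 2 + Finsupp.single i 1 : σ →₀ ℕ) i : ℂ) + 1) ≠ 0 :=
    Nat.cast_add_one_ne_zero _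
  have h4 : (((m - Finsupp.single i 2 : σ →₀ ℕ) i : ℂ) + 1) ≠ 0 :=
    Nat.cast_add_one_ne_zero _
  rcases mul_eq_zero.1 h1 with h5 | h5
  · rcases mul_eq_zero.1 h5 with h6 | h6
    · exact h6
    · exact absurd h6 h3
  · exact absurd h5 h4

lemma eq_ind_of_le {m : σ →₀ ℕ} (h : ∀ i, m i < 2) : m = ind m.support := by
  ext i
  rw [ind_apply]
  have := h i
  by_cases hi : m i = 0
  · simp [hi]
  · have h1 : m i = 1 := by omega
    simp [h1]

lemma mem_Sp_of_hom {j : ℕ} {F : MvPolynomial σ ℂ} (hF : F ∈ Rj σ j)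
    (h : ∀ i, pderiv i (pderiv i F) = 0) : F ∈ Sp {β : Finset σ | β.card = j} := by
  rw [← F.support_sum_monomial_coeff]
  refine Submodule.sum_mem _ fun m hm => ?_
  have h1 : m = ind m.support := by
    apply eq_ind_of_le
    intro i
    by_contra hcon
    push Not at hcon
    exact (mem_support_iff.1 hm) (coeff_eq_zero_of_sq (h i) hcon)
  rw [mem_homogeneousSubmodule] at hF
  have h2 : m.degree = j := by
    by_contra hne
    exact (mem_support_iff.1 hm) (hF.coeff_eq_zero hne)
  have h3 : (monomial m (coeff m F) : MvPolynomial σ ℂ) = coeff m F • xm m.support := by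
    unfold xm
    rw [← h1, smul_monomial, smul_eq_mul, mul_one]
  rw [h3]
  refine Submodule.smul_mem _ _ (xm_mem_Sp ?_)
  change m.support.card = j
  rw [← ind_degree, ← h1, h2]

lemma Sp_hom {j : ℕ} {F : MvPolynomial σ ℂ} (hF : F ∈ Sp {β : Finset σ | β.card = j}) :
    F ∈ Rj σ j ∧ ∀ i, pderiv i (pderiv i F) = 0 := by
  constructor
  · refine map_mem_of_Sp LinearMap.id (Rj σ j) ?_ hF
    rintro β (rfl : β.card = j)
    exact xm_hom β
  · intro i
    have := map_mem_of_Sp ((pderiv i).toLinearMap ∘ₗ (pderiv i).toLinearMap) ⊥ (P := {β : Finset σ | β.card = j}) (by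
      intro β _
      rw [Submodule.mem_bot, LinearMap.comp_apply]
      change pderiv i (pderiv i (xm β)) = 0
      rw [pderiv_xm]
      split_ifs
      · rw [pderiv_xm, if_neg (Finset.notMem_erase _ _)]
      · rw [map_zero]) hF
    simpa using this

/-- the `l`-th block constraint -/
def blc (e : ℕ) {r : ℕ} (B : Fin r → Finset σ) (l : ℕ) : (σ → ℂ) × ℕ :=
  if h : l < r then (bl (B ⟨l, h⟩), e) else (0, e)

/-- first `j` blocks together with all the coordinate constraints -/
def fullList (e : ℕ) {r : ℕ} (B : Fin r → Finset σ) (j : ℕ) : List ((σ → ℂ) × ℕ) :=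
  (List.range j).reverse.map (blc e B) ++ coordList (Finset.univ : Finset σ).toList

lemma fullList_succ (e : ℕ) {r : ℕ} (B : Fin r → Finset σ) (j : ℕ) :
    fullList e B (j + 1) = blc e B j :: fullList e B j := by
  unfold fullList
  rw [List.range_succ, List.reverse_append]
  rfl

lemma mem_K_full {e : ℕ} {r : ℕ} {B : Fin r → Finset σ} {j : ℕ} (hj : j ≤ r) {i : ℕ}
    {F : MvPolynomial σ ℂ} :
    F ∈ K (fullList e B j) i ↔ F ∈ Sp {β : Finset σ | β.card = i} ∧
      ∀ l : Fin r, l.val < j → (D (bl (B l)) ^ e) F = 0 := by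
  rw [mem_K]
  constructor
  · rintro ⟨h1, h2⟩
    refine ⟨mem_Sp_of_hom h1 fun k => ?_, fun l hl => ?_⟩
    · have := h2 (Pi.single k 1, 2) (by
        unfold fullList coordList
        rw [List.mem_append]
        right
        rw [List.mem_map]
        exact ⟨k, by simp, rfl⟩)
      rwa [D_single_sq] at this
    · have := h2 (blc e B l.val) (by
        unfold fullList
        rw [List.mem_append]
        left
        rw [List.mem_map]
        exact ⟨l.val, by simpa using hl, rfl⟩)
      have h3 : blc e B l.val = (bl (B l), e) := by simp [blc, l.2]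
      rwa [h3] at this
  · rintro ⟨h1, h2⟩
    obtain ⟨h3, h4⟩ := Sp_hom h1
    refine ⟨h3, ?_⟩
    intro c hc
    unfold fullList coordList at hc
    rw [List.mem_append, List.mem_map, List.mem_map] at hc
    rcases hc with ⟨l, hl, rfl⟩ | ⟨k, _, rfl⟩
    · have hl' : l < j := by simpa using hl
      have hlr : l < r := by omega
      have h5 : blc e B l = (bl (B ⟨l, hlr⟩), e) := by simp [blc, hlr]
      rw [h5]
      exact h2 ⟨l, hlr⟩ hl'
    · rw [D_single_sq]; exact h4 k

lemma EQ_full {d e r : ℕ} (he : 0 < e) {B : Fin r → Finset σ}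
    (hB : Design e (zz d d) d B) : ∀ j ≤ r, EQ d (fullList e B j) := by
  intro j
  induction j with
  | zero =>
    intro _
    unfold fullList
    simpa using EQ_coord d _ (Finset.nodup_toList Finset.univ)
  | succ j ih =>
    intro hj
    rw [fullList_succ]
    have h5 : blc e B j = (bl (B ⟨j, hj⟩), e) := by
      have : j < r := hj
      simp [blc, this]
    rw [h5]
    refine EQ_cons_of_surj (ih (by omega)) ?_
    intro i hi H hH
    rw [mem_K_full (by omega)] at hH
    obtain ⟨F, hF1, hF2, hF3⟩ := design_surj he hB ⟨j, hj⟩ hi hH.1 hH.2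
    exact ⟨F, (mem_K_full (by omega)).2 ⟨hF1, hF2⟩, hF3⟩

/-- the point configuration of a block system -/
def blPts {r : ℕ} (B : Fin r → Finset σ) : Fin r × σ → ℂ := fun x => bl (B x.1) x.2

lemma UB_pts {d e r : ℕ} (he : 0 < e) {B : Fin r → Finset σ}
    (hB : Design e (zz d d) d B) : UB d (ptList e (blPts B)) := by
  have h1 := UB_of_EQ (EQ_full he hB r le_rfl)
  have h2 : ptList e (blPts B) = (List.range r).map (blc e B) := by
    unfold ptList
    rw [List.ofFn_eq_map, ← List.map_coe_finRange_eq_range, List.map_map]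
    refine List.map_congr_left fun k _ => ?_
    simp only [Function.comp_apply, blc, k.2, dif_pos]
    rfl
  have h3 : (fullList e B r).Perm (coordList (Finset.univ : Finset σ).toList ++
      ptList e (blPts B)) := by
    unfold fullList
    rw [h2]
    refine List.perm_append_comm.trans ?_
    exact List.Perm.append_left _ ((List.reverse_perm _).map _)
  refine UB_append_right ?_ (UB_perm h3 h1)
  intro c hc
  obtain ⟨k, _, rfl⟩ := List.mem_map.1 hc
  exact Nat.zero_lt_two

lemma map_snd_ptList {e r : ℕ} (P : Fin r × σ → ℂ) :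
    (ptList e P).map Prod.snd = List.replicate r e := by
  unfold ptList
  rw [List.map_ofFn]
  exact List.ofFn_const r e

/-- generic dimensions from a design -/
theorem generic_of_design {d e r : ℕ} (he : 0 < e) {B : Fin r → Finset σ}
    (hB : Design e (zz d d) d B) :
    ∃ Φ : MvPolynomial (Fin r × σ) ℂ, Φ ≠ 0 ∧ ∀ P, eval P Φ ≠ 0 →
      (Module.finrank ℂ (K (ptList e P) d) : ℤ) =
        ∑ l ∈ Finset.range (d / e + 1), (-1 : ℤ) ^ l * (r.choose l : ℤ) * gj σ (d - l * e) := by
  obtain ⟨Φ, h0, hΦ⟩ := generic_K_all e d (blPts B)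
  refine ⟨Φ, h0, fun P hP => ?_⟩
  have h1 : UB d (ptList e P) := by
    intro j hj
    have h2 := UB_pts he hB j hj
    rw [map_snd_ptList] at h2 ⊢
    have h3 := hΦ P hP j hj
    exact (Nat.cast_le.2 h3).trans h2
  have h4 := EQ_of_UB (by
    intro c hc
    obtain ⟨k, rfl⟩ := exists_of_mem_ptList hc
    exact he) h1 d le_rfl
  rw [h4, map_snd_ptList, E_closed _ he]

end
end H350MF
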