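import Mathlib
import Pool.Agent.H350R3.MF.Comb

set_option linter.unusedSectionVars false

namespace H350MF

noncomputable section

section core
variable {σ : Type*} [Fintype σ] [DecidableEq σ] {k n0 : ℕ} (ι : Fin k × Fin n0 ↪ σ)

/-- functions whose block meets `W` a lot -/
def badS (e : ℕ) (f : Fin k → Fin n0) (W : Finset σ) : Finset (Fin k → Fin n0) :=
  Finset.univ.filter fun g => g ≠ f ∧ e ≤ (Sb ι g ∩ W).card

lemma card_badS (e : ℕ) (f : Fin k → Fin n0) (W : Finset σ) {w : ℕ} (hW : W.card ≤ w) :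
    (badS ι e f W).card ≤ 2 ^ k * w ^ e * n0 ^ (k - e) := by
  refine (Finset.card_le_card ?_).trans ((count_bad ι e W).trans ?_)
  · intro g hg
    simp only [badS, Finset.mem_filter] at hg ⊢
    exact ⟨hg.1, hg.2.2⟩
  · gcongr

/-- forbidden pairs -/
def C1 (e : ℕ) : Finset (Finset (Fin k → Fin n0)) :=
  Finset.univ.biUnion fun f => (badS ι e f (Sb ι f)).image fun g => {f, g}

/-- forbidden stars -/
def C2 (e z L : ℕ) : Finset (Finset (Fin k → Fin n0)) :=
  Finset.univ.biUnion fun f => ((Finset.univ : Finset σ).powersetCard z).biUnion fun Z =>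
    ((badS ι e f (Sb ι f ∪ Z)).powersetCard (L + 1)).image (insert f)

lemma card_of_mem_C1 {e : ℕ} {A : Finset (Fin k → Fin n0)} (hA : A ∈ C1 ι e) : A.card = 2 := by
  simp only [C1, Finset.mem_biUnion, Finset.mem_univ, true_and, Finset.mem_image] at hA
  obtain ⟨f, g, hg, rfl⟩ := hA
  simp only [badS, Finset.mem_filter] at hg
  exact Finset.card_pair hg.2.1.symm

lemma card_of_mem_C2 {e z L : ℕ} {A : Finset (Fin k → Fin n0)} (hA : A ∈ C2 ι e z L) :
    A.card = L + 2 := by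
  simp only [C2, Finset.mem_biUnion, Finset.mem_univ, true_and, Finset.mem_image] at hA
  obtain ⟨f, Z, _, A', hA', rfl⟩ := hA
  rw [Finset.mem_powersetCard] at hA'
  rw [Finset.card_insert_of_notMem, hA'.2]
  intro hf
  have := hA'.1 hf
  simp only [badS, Finset.mem_filter] at this
  exact this.2.1 rfl

lemma card_C1 (e z : ℕ) : (C1 ι e).card ≤ n0 ^ k * (2 ^ k * (k + z) ^ e * n0 ^ (k - e)) := by
  unfold C1
  refine (Finset.card_biUnion_le_card_mul _ _ (2 ^ k * (k + z) ^ e * n0 ^ (k - e)) ?_).trans ?_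
  · intro f _
    refine Finset.card_image_le.trans (card_badS ι e f _ ?_)
    rw [card_Sb]; omega
  · rw [Finset.card_univ, Fintype.card_fun, Fintype.card_fin, Fintype.card_fin]

lemma card_C2 (e z L : ℕ) : (C2 ι e z L).card ≤
    n0 ^ k * ((Fintype.card σ) ^ z * (2 ^ k * (k + z) ^ e * n0 ^ (k - e)) ^ (L + 1)) := by
  unfold C2
  refine (Finset.card_biUnion_le_card_mul _ _
    ((Fintype.card σ) ^ z * (2 ^ k * (k + z) ^ e * n0 ^ (k - e)) ^ (L + 1)) ?_).trans ?_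
  · intro f _
    refine (Finset.card_biUnion_le_card_mul _ _
      ((2 ^ k * (k + z) ^ e * n0 ^ (k - e)) ^ (L + 1)) ?_).trans ?_
    · intro Z hZ
      rw [Finset.mem_powersetCard] at hZ
      refine Finset.card_image_le.trans ?_
      rw [Finset.card_powersetCard]
      refine (Nat.choose_le_pow _ _).trans (Nat.pow_le_pow_left (card_badS ι e f _ ?_) _)
      refine (Finset.card_union_le _ _).trans ?_
      rw [card_Sb, hZ.2]
    · rw [Finset.card_powersetCard, Finset.card_univ]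
      exact Nat.mul_le_mul_right _ (Nat.choose_le_pow _ _)
  · rw [Finset.card_univ, Fintype.card_fun, Fintype.card_fin, Fintype.card_fin]

/-- a large family without forbidden configurations -/
lemma exists_family {e z L Q : ℕ} (hQ : 0 < Q)
    (h1 : 4 * (2 ^ k * (k + z) ^ e * n0 ^ (k - e)) ≤ Q)
    (h2 : 4 * ((Fintype.card σ) ^ z * (2 ^ k * (k + z) ^ e * n0 ^ (k - e)) ^ (L + 1))
      ≤ Q ^ (L + 1)) {r : ℕ} (hr : 2 * r * Q ≤ n0 ^ k) :
    ∃ B : Finset (Fin k → Fin n0), r ≤ B.card ∧ (∀ A ∈ C1 ι e, ¬ A ⊆ B) ∧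
      (∀ A ∈ C2 ι e z L, ¬ A ⊆ B) := by
  classical
  have : NeZero Q := ⟨hQ.ne'⟩
  have hQ0 : (0 : ℝ) < Q := Nat.cast_pos.2 hQ
  obtain ⟨B, hB1, hB2⟩ := deletion (U := Fin k → Fin n0) Q (C1 ι e ∪ C2 ι e z L) (by
    intro A hA
    rw [← Finset.card_pos]
    rcases Finset.mem_union.1 hA with h | h
    · rw [card_of_mem_C1 ι h]; norm_num
    · rw [card_of_mem_C2 ι h]; omega)
  refine ⟨B, ?_, fun A hA => hB1 A (Finset.mem_union_left _ hA),
    fun A hA => hB1 A (Finset.mem_union_right _ hA)⟩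
  have hU : (Fintype.card (Fin k → Fin n0) : ℝ) = (n0 : ℝ) ^ k := by
    rw [Fintype.card_fun, Fintype.card_fin, Fintype.card_fin]; push_cast; rfl
  rw [hU] at hB2
  have hs : ∑ A ∈ C1 ι e ∪ C2 ι e z L, ((Q : ℝ)⁻¹) ^ A.card
      ≤ ∑ A ∈ C1 ι e, ((Q : ℝ)⁻¹) ^ A.card + ∑ A ∈ C2 ι e z L, ((Q : ℝ)⁻¹) ^ A.card := by
    rw [← Finset.sum_union_inter]
    have : 0 ≤ ∑ A ∈ C1 ι e ∩ C2 ι e z L, ((Q : ℝ)⁻¹) ^ A.card :=
      Finset.sum_nonneg fun A _ => by positivity
    linarith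
  have hs1 : ∑ A ∈ C1 ι e, ((Q : ℝ)⁻¹) ^ A.card ≤ (n0 : ℝ) ^ k / Q / 4 := by
    have h3 : ∑ A ∈ C1 ι e, ((Q : ℝ)⁻¹) ^ A.card = ((C1 ι e).card : ℝ) * ((Q : ℝ)⁻¹) ^ 2 := by
      rw [Finset.sum_congr rfl fun A hA => by rw [card_of_mem_C1 ι hA], Finset.sum_const,
        nsmul_eq_mul]
    have h4 : ((C1 ι e).card : ℝ) ≤ (n0 : ℝ) ^ k * (Q / 4) := by
      have h5 : ((C1 ι e).card : ℝ) ≤
          (n0 : ℝ) ^ k * ((2 ^ k * (k + z) ^ e * n0 ^ (k - e) : ℕ) : ℝ) := by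
        exact_mod_cast card_C1 ι e z
      refine h5.trans (mul_le_mul_of_nonneg_left ?_ (by positivity))
      rw [le_div_iff₀ (by norm_num), mul_comm]
      exact_mod_cast h1
    rw [h3]
    calc ((C1 ι e).card : ℝ) * ((Q : ℝ)⁻¹) ^ 2 ≤ ((n0 : ℝ) ^ k * (Q / 4)) * ((Q : ℝ)⁻¹) ^ 2 :=
          mul_le_mul_of_nonneg_right h4 (by positivity)
      _ = (n0 : ℝ) ^ k / Q / 4 := by field_simp
  have hs2 : ∑ A ∈ C2 ι e z L, ((Q : ℝ)⁻¹) ^ A.card ≤ (n0 : ℝ) ^ k / Q / 4 := by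
    have h3 : ∑ A ∈ C2 ι e z L, ((Q : ℝ)⁻¹) ^ A.card
        = ((C2 ι e z L).card : ℝ) * ((Q : ℝ)⁻¹) ^ (L + 2) := by
      rw [Finset.sum_congr rfl fun A hA => by rw [card_of_mem_C2 ι hA], Finset.sum_const,
        nsmul_eq_mul]
    have h4 : ((C2 ι e z L).card : ℝ) ≤ (n0 : ℝ) ^ k * ((Q : ℝ) ^ (L + 1) / 4) := by
      have h5 : ((C2 ι e z L).card : ℝ) ≤ (n0 : ℝ) ^ k *
          (((Fintype.card σ) ^ z * (2 ^ k * (k + z) ^ e * n0 ^ (k - e)) ^ (L + 1) : ℕ) : ℝ) := by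
        exact_mod_cast card_C2 ι e z L
      refine h5.trans (mul_le_mul_of_nonneg_left ?_ (by positivity))
      rw [le_div_iff₀ (by norm_num), mul_comm]
      exact_mod_cast h2
    rw [h3]
    calc ((C2 ι e z L).card : ℝ) * ((Q : ℝ)⁻¹) ^ (L + 2)
        ≤ ((n0 : ℝ) ^ k * ((Q : ℝ) ^ (L + 1) / 4)) * ((Q : ℝ)⁻¹) ^ (L + 2) :=
          mul_le_mul_of_nonneg_right h4 (by positivity)
      _ = (n0 : ℝ) ^ k / Q / 4 := by
          rw [inv_pow, pow_succ (Q : ℝ) (L + 1)]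
          field_simp
  have h6 : (2 * r : ℝ) ≤ (n0 : ℝ) ^ k / Q := by
    rw [le_div_iff₀ hQ0]
    exact_mod_cast hr
  have h7 : (r : ℝ) ≤ B.card := by linarith
  exact_mod_cast h7

/-- the design property from the absence of forbidden configurations -/
lemma design_of_family {e z t L : ℕ} (hk : z + L * e + t ≤ k) (hn0 : 0 < n0)
    {B : Finset (Fin k → Fin n0)} (h1 : ∀ A ∈ C1 ι e, ¬ A ⊆ B)
    (h2 : ∀ A ∈ C2 ι e z L, ¬ A ⊆ B) {r : ℕ} (φ : Fin r → (Fin k → Fin n0))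
    (hφ : Function.Injective φ) (hφB : ∀ i, φ i ∈ B) :
    Design e z t (fun i => Sb ι (φ i)) := by
  classical
  have hinter : ∀ f ∈ B, ∀ g ∈ B, f ≠ g → (Sb ι f ∩ Sb ι g).card < e := by
    intro f hf g hg hne
    by_contra hcon
    push Not at hcon
    refine h1 {f, g} ?_ (Finset.insert_subset hf (Finset.singleton_subset_iff.2 hg))
    simp only [C1, Finset.mem_biUnion, Finset.mem_univ, true_and, Finset.mem_image]
    refine ⟨f, g, ?_, rfl⟩
    simp only [badS, Finset.mem_filter, Finset.mem_univ, true_and]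
    exact ⟨hne.symm, by rwa [Finset.inter_comm]⟩
  refine ⟨fun i j hij => hinter _ (hφB i) _ (hφB j) (fun h => hij (hφ h)), ?_⟩
  intro i Z hZ
  have hzN : z ≤ Fintype.card σ := by
    have h3 := Fintype.card_le_of_embedding ι
    rw [Fintype.card_prod, Fintype.card_fin, Fintype.card_fin] at h3
    have h4 : k ≤ k * n0 := Nat.le_mul_of_pos_right _ hn0
    have : z ≤ k := by have := Nat.zero_le (L * e); omega
    omega
  obtain ⟨Z1, hZ1, hZ1c⟩ := Finset.exists_superset_card_eq hZ hzN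
  let G := B.filter fun g => g ∈ badS ι e (φ i) (Sb ι (φ i) ∪ Z1)
  have hG : G.card ≤ L := by
    by_contra hcon
    push Not at hcon
    obtain ⟨A', hA1, hA2⟩ := Finset.exists_subset_card_eq (Nat.succ_le_of_lt hcon)
    refine h2 (insert (φ i) A') ?_ (Finset.insert_subset (hφB i)
      (hA1.trans (Finset.filter_subset _ _)))
    simp only [C2, Finset.mem_biUnion, Finset.mem_univ, true_and, Finset.mem_image]
    refine ⟨φ i, Z1, Finset.mem_powersetCard.2 ⟨Finset.subset_univ _, hZ1c⟩, A', ?_, rfl⟩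
    rw [Finset.mem_powersetCard]
    exact ⟨fun g hg => (Finset.mem_filter.1 (hA1 hg)).2, hA2⟩
  have hcard : t ≤ (Sb ι (φ i) \ (Z1 ∪ G.biUnion fun g => Sb ι (φ i) ∩ Sb ι g)).card := by
    have h3 := Finset.le_card_sdiff (Z1 ∪ G.biUnion fun g => Sb ι (φ i) ∩ Sb ι g) (Sb ι (φ i))
    have h4 : (Z1 ∪ G.biUnion fun g => Sb ι (φ i) ∩ Sb ι g).card ≤ z + L * e := by
      refine (Finset.card_union_le _ _).trans ?_
      rw [hZ1c]
      refine Nat.add_le_add_left ?_ _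
      refine (Finset.card_biUnion_le_card_mul _ _ e ?_).trans (Nat.mul_le_mul_right _ hG)
      intro g hg
      rw [Finset.mem_filter] at hg
      have h5 : g ≠ φ i := by
        have := hg.2
        simp only [badS, Finset.mem_filter] at this
        exact this.2.1
      exact (hinter _ (hφB i) _ hg.1 h5.symm).le
    rw [card_Sb] at h3
    omega
  obtain ⟨T, hT1, hT2⟩ := Finset.exists_subset_card_eq hcard
  have hTS : T ⊆ Sb ι (φ i) := hT1.trans Finset.sdiff_subset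
  refine ⟨T, hTS, ?_, hT2, ?_⟩
  · rw [Finset.disjoint_left]
    intro x hx hxZ
    have := Finset.mem_sdiff.1 (hT1 hx)
    exact this.2 (Finset.mem_union_left _ (hZ1 hxZ))
  · intro j hj
    by_cases hjG : φ j ∈ G
    · left
      rw [Finset.disjoint_left]
      intro x hx hxT
      have := Finset.mem_sdiff.1 (hT1 hxT)
      refine this.2 (Finset.mem_union_right _ (Finset.mem_biUnion.2 ⟨φ j, hjG, ?_⟩))
      exact Finset.mem_inter.2 ⟨hTS hxT, hx⟩
    · right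
      have h3 : ¬ e ≤ (Sb ι (φ j) ∩ (Sb ι (φ i) ∪ Z1)).card := by
        intro hcon
        apply hjG
        rw [Finset.mem_filter]
        refine ⟨hφB j, ?_⟩
        simp only [badS, Finset.mem_filter, Finset.mem_univ, true_and]
        exact ⟨fun h => hj (hφ h), hcon⟩
      push Not at h3
      refine lt_of_le_of_lt (Finset.card_le_card (Finset.inter_subset_inter_left ?_)) h3
      refine Finset.union_subset ?_ ?_
      · exact hZ1.trans Finset.subset_union_right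
      · exact hTS.trans Finset.subset_union_left

end core

lemma exists_root {a n0 : ℕ} (ha : 0 < a) (hn0 : 0 < n0) :
    ∃ y : ℕ, 0 < y ∧ y ^ a ≤ n0 ∧ n0 < (y + 1) ^ a := by
  classical
  have hex : ∃ y, n0 < (y + 1) ^ a := ⟨n0, (Nat.lt_succ_self n0).trans_le
    (Nat.le_self_pow ha.ne' _)⟩
  refine ⟨Nat.find hex, ?_, ?_, Nat.find_spec hex⟩
  · rw [Nat.find_pos]
    simp; omega
  · by_contra hcon
    push Not at hcon
    have hpos : 0 < Nat.find hex := by
      rw [Nat.find_pos]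
      simp; omega
    obtain ⟨y, hy⟩ : ∃ y, Nat.find hex = y + 1 := ⟨Nat.find hex - 1, by omega⟩
    rw [hy] at hcon
    exact Nat.find_min hex (m := y) (by omega) hcon

/-- existence of the block systems -/
theorem exists_design (e z t a : ℕ) (he : 0 < e) (ha : 0 < a) :
    ∃ C : ℕ, 0 < C ∧ ∀ (σ : Type) [Fintype σ] [DecidableEq σ] (r : ℕ),
      C * r ^ a ≤ (Fintype.card σ) ^ (a * e - 1) →
      ∃ B : Fin r → Finset σ, Design e z t B := by
  obtain ⟨L, hL⟩ : ∃ L, L = a * z := ⟨_, rfl⟩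
  obtain ⟨k, hk⟩ : ∃ k, k = z + L * e + t + e := ⟨_, rfl⟩
  obtain ⟨M, hM⟩ : ∃ M, M = 2 ^ k * (k + z) ^ e := ⟨_, rfl⟩
  obtain ⟨κ, hκ⟩ : ∃ κ, κ = 4 * M * (2 * k) ^ z * 2 ^ (a * z) := ⟨_, rfl⟩
  have hk0 : 0 < k := by omega
  have hM0 : 0 < M := by rw [hM]; positivity
  have hκ0 : 0 < κ := by rw [hκ]; positivity
  refine ⟨(2 * κ) ^ a * (2 * k) ^ (a * e - 1), by positivity, ?_⟩
  intro σ _ _ r hr
  rcases Nat.eq_zero_or_pos r with hr0 | hr0
  · subst hr0
    exact ⟨fun i => i.elim0, fun i => i.elim0, fun i => i.elim0⟩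
  obtain ⟨N, hN⟩ : ∃ N, N = Fintype.card σ := ⟨_, rfl⟩
  rw [← hN] at hr
  have hra : 1 ≤ r ^ a := Nat.one_le_pow _ _ hr0
  have hNk : k ≤ N := by
    by_contra hcon
    push Not at hcon
    have h1 : N ^ (a * e - 1) ≤ (2 * k) ^ (a * e - 1) := Nat.pow_le_pow_left (by omega) _
    have h2 : 2 ≤ (2 * κ) ^ a := by
      refine le_trans ?_ (Nat.le_self_pow ha.ne' _); omega
    have h3 : 0 < (2 * k) ^ (a * e - 1) := by positivity
    have h4 : 2 * (2 * k) ^ (a * e - 1) * 1 ≤ (2 * κ) ^ a * (2 * k) ^ (a * e - 1) * r ^ a :=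
      Nat.mul_le_mul (Nat.mul_le_mul_right _ h2) hra
    omega
  obtain ⟨n0, hn⟩ : ∃ n0, n0 = N / k := ⟨_, rfl⟩
  have hn0 : 0 < n0 := by rw [hn]; exact Nat.div_pos hNk hk0
  have hNn : N ≤ 2 * k * n0 := by
    have h1 : N < k * (N / k + 1) := Nat.lt_mul_div_succ N hk0
    rw [← hn] at h1
    have h2 : k * (n0 + 1) ≤ 2 * k * n0 := by nlinarith
    omega
  have hkn : k * n0 ≤ N := by rw [hn]; exact Nat.mul_div_le N k
  obtain ⟨ι⟩ : Nonempty (Fin k × Fin n0 ↪ σ) := by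
    refine Function.Embedding.nonempty_of_card_le ?_
    rw [Fintype.card_prod, Fintype.card_fin, Fintype.card_fin, ← hN]
    exact hkn
  obtain ⟨y, hy0, hy1, hy2⟩ := exists_root ha hn0
  obtain ⟨V, hV⟩ : ∃ V, V = n0 ^ (k - e) := ⟨_, rfl⟩
  have hV0 : 0 < V := by rw [hV]; positivity
  have hMκ : 4 * M ≤ κ := by
    rw [hκ, mul_assoc (4 * M)]
    refine Nat.le_mul_of_pos_right _ (by positivity)
  -- the three numerical conditions
  have c1 : 4 * (2 ^ k * (k + z) ^ e * n0 ^ (k - e)) ≤ κ * V * y := by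
    rw [← hM, ← hV]
    calc 4 * (M * V) = 4 * M * V * 1 := by ring
      _ ≤ κ * V * y := Nat.mul_le_mul (Nat.mul_le_mul_right _ hMκ) hy0
  have hNz : N ^ z ≤ (2 * k) ^ z * 2 ^ (a * z) * y ^ L := by
    have h1 : n0 ≤ (2 * y) ^ a := hy2.le.trans (Nat.pow_le_pow_left (by omega) _)
    calc N ^ z ≤ (2 * k * (2 * y) ^ a) ^ z :=
          Nat.pow_le_pow_left (hNn.trans (Nat.mul_le_mul_left _ h1)) _
      _ = (2 * k) ^ z * 2 ^ (a * z) * y ^ L := by
          rw [hL, mul_pow (2 * k) ((2 * y) ^ a) z, ← pow_mul, mul_pow 2 y (a * z), ← mul_assoc]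
  have c2 : 4 * (N ^ z * (2 ^ k * (k + z) ^ e * n0 ^ (k - e)) ^ (L + 1))
      ≤ (κ * V * y) ^ (L + 1) := by
    rw [← hM, ← hV]
    have h1 : 4 * M ^ (L + 1) * ((2 * k) ^ z * 2 ^ (a * z)) ≤ κ ^ (L + 1) := by
      calc 4 * M ^ (L + 1) * ((2 * k) ^ z * 2 ^ (a * z))
          = κ * M ^ L := by rw [hκ, pow_succ]; ring
        _ ≤ κ * κ ^ L := Nat.mul_le_mul_left _ (Nat.pow_le_pow_left (by omega) _)
        _ = κ ^ (L + 1) := by rw [pow_succ]; ring
    calc 4 * (N ^ z * (M * V) ^ (L + 1))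
        ≤ 4 * ((2 * k) ^ z * 2 ^ (a * z) * y ^ L * (M * V) ^ (L + 1)) :=
          Nat.mul_le_mul_left _ (Nat.mul_le_mul_right _ hNz)
      _ = (4 * M ^ (L + 1) * ((2 * k) ^ z * 2 ^ (a * z))) * V ^ (L + 1) * y ^ L := by
          rw [mul_pow]; ring
      _ ≤ κ ^ (L + 1) * V ^ (L + 1) * y ^ (L + 1) :=
          Nat.mul_le_mul (Nat.mul_le_mul_right _ h1) (Nat.pow_le_pow_right hy0 (by omega))
      _ = (κ * V * y) ^ (L + 1) := by rw [mul_pow, mul_pow]
  have c3 : 2 * r * (κ * V * y) ≤ n0 ^ k := by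
    have h1 : 2 * κ * y * r ≤ n0 ^ e := by
      rw [← Nat.pow_le_pow_iff_left ha.ne']
      have h2 : (2 * k) ^ (a * e - 1) * (2 * κ * y * r) ^ a
          ≤ (2 * k) ^ (a * e - 1) * (n0 ^ e) ^ a := by
        calc (2 * k) ^ (a * e - 1) * (2 * κ * y * r) ^ a
            = ((2 * κ) ^ a * (2 * k) ^ (a * e - 1) * r ^ a) * y ^ a := by
              rw [mul_pow (2 * κ * y) r a, mul_pow (2 * κ) y a]; ring
          _ ≤ N ^ (a * e - 1) * n0 := Nat.mul_le_mul hr hy1
          _ ≤ (2 * k * n0) ^ (a * e - 1) * n0 :=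
              Nat.mul_le_mul_right _ (Nat.pow_le_pow_left hNn _)
          _ = (2 * k) ^ (a * e - 1) * (n0 ^ e) ^ a := by
              rw [mul_pow, mul_assoc, ← pow_succ, ← pow_mul]
              congr 2
              have : 0 < a * e := Nat.mul_pos ha he
              rw [Nat.sub_add_cancel this, mul_comm]
      exact Nat.le_of_mul_le_mul_left h2 (by positivity)
    calc 2 * r * (κ * V * y) = (2 * κ * y * r) * V := by ring
      _ ≤ n0 ^ e * V := Nat.mul_le_mul_right _ h1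
      _ = n0 ^ k := by
          rw [hV, ← pow_add]
          congr 1
          omega
  obtain ⟨B, hB1, hB2, hB3⟩ := exists_family ι (e := e) (z := z) (L := L) (Q := κ * V * y)
    (by positivity) c1 (by rw [← hN]; exact c2) c3
  obtain ⟨ψ⟩ : Nonempty (Fin r ↪ B) := by
    refine Function.Embedding.nonempty_of_card_le ?_
    rw [Fintype.card_fin, Fintype.card_coe]
    exact hB1
  exact ⟨_, design_of_family ι (t := t) (L := L) (by omega) hn0 hB2 hB3
    (fun i => (ψ i).1) (fun i j h => ψ.injective (Subtype.ext h)) (fun i => (ψ i).2)⟩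

end
end H350MF
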