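import Mathlib
import Pool.Agent.H350R3.MF.Coord
import Pool.Agent.H350R3.MF.Des

set_option linter.unusedSectionVars false

namespace H350MF
open MvPolynomial

noncomputable section

/-- numerical part: the real inequality gives the one used for the block systems -/
lemma real_to_nat {e a C : ℕ} (he : 0 < e) (ha : 0 < a) (hC : 0 < C) {δ : ℝ}
    (hδ : δ ≤ (e : ℝ) - 1 / (a : ℝ)) {n r : ℕ} (hn : 1 ≤ n)
    (hr : (r : ℝ) ≤ 1 / (C : ℝ) * (n : ℝ) ^ δ) :
    C * r ^ a ≤ (n + 1) ^ (a * e - 1) := by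
  have hn' : (1 : ℝ) ≤ n := by exact_mod_cast hn
  have hn0 : (0 : ℝ) ≤ n := by linarith
  have hC' : (1 : ℝ) ≤ C := by exact_mod_cast hC
  have ha' : (0 : ℝ) < a := by exact_mod_cast ha
  have h1 : (r : ℝ) ≤ 1 / (C : ℝ) * (n : ℝ) ^ ((e : ℝ) - 1 / (a : ℝ)) := by
    refine hr.trans (mul_le_mul_of_nonneg_left ?_ (by positivity))
    exact Real.rpow_le_rpow_of_exponent_le hn' hδ
  have h2 : ((n : ℝ) ^ ((e : ℝ) - 1 / (a : ℝ))) ^ a = (n : ℝ) ^ (a * e - 1) := by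
    rw [← Real.rpow_natCast, ← Real.rpow_mul hn0, ← Real.rpow_natCast]
    congr 1
    have : 1 ≤ a * e := Nat.mul_pos ha he
    rw [Nat.cast_sub this]
    push_cast
    field_simp
  have h3 : (C : ℝ) * (r : ℝ) ^ a ≤ (n : ℝ) ^ (a * e - 1) := by
    have h4 : (r : ℝ) ^ a ≤ (1 / (C : ℝ)) ^ a * (n : ℝ) ^ (a * e - 1) := by
      rw [← h2, ← mul_pow]
      exact pow_le_pow_left₀ (Nat.cast_nonneg r) h1 a
    have h5 : (1 / (C : ℝ)) ^ a ≤ 1 / (C : ℝ) := by
      refine pow_le_of_le_one (by positivity) ?_ ha.ne'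
      rw [div_le_one (by linarith)]; exact hC'
    calc (C : ℝ) * (r : ℝ) ^ a ≤ C * (1 / (C : ℝ) * (n : ℝ) ^ (a * e - 1)) := by
          refine mul_le_mul_of_nonneg_left (h4.trans ?_) (by linarith)
          exact mul_le_mul_of_nonneg_right h5 (by positivity)
      _ = (n : ℝ) ^ (a * e - 1) := by
          rw [← mul_assoc, mul_one_div_cancel (by linarith), one_mul]
  have h6 : C * r ^ a ≤ n ^ (a * e - 1) := by exact_mod_cast h3
  exact h6.trans (Nat.pow_le_pow_left (Nat.le_succ n) _)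

/-- the intersection of the powers of the point ideals in degree `d` -/
lemma inf_eq_K {n r m d : ℕ} (hmd : m ≤ d) (v : Fin r → Fin (n + 1) → ℂ) (hv : ∀ i, v i ≠ 0) :
    (homogeneousSubmodule (Fin (n + 1)) ℂ d ⊓
      Submodule.restrictScalars ℂ (⨅ i, pointIdeal (v i) ^ m : Ideal _))
      = K (ptList (d - m + 1) (fun x : Fin r × Fin (n + 1) => v x.1 x.2)) d := by
  have he : d - m + 1 = d + 1 - m := by omega
  ext F
  rw [Submodule.mem_inf, Submodule.restrictScalars_mem, Submodule.mem_iInf, mem_K]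
  constructor
  · rintro ⟨h1, h2⟩
    refine ⟨h1, ?_⟩
    intro c hc
    obtain ⟨k, rfl⟩ := exists_of_mem_ptList hc
    have := (mem_pow_iff (hv k) (by omega) h1).1 (h2 k)
    rw [he]; exact this
  · rintro ⟨h1, h2⟩
    refine ⟨h1, fun k => ?_⟩
    rw [mem_pow_iff (hv k) (by omega) h1, ← he]
    exact h2 (fun i => v k i, d - m + 1)
      (mem_ptList (e := d - m + 1) (fun x : Fin r × Fin (n + 1) => v x.1 x.2) k)

lemma gj_fin (n j : ℕ) : gj (Fin (n + 1)) j = ((n + j).choose n : ℕ) := by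
  unfold gj
  rw [Fintype.card_fin]
  have h1 : n + 1 + j - 1 = n + j := by omega
  rw [h1, ← Nat.choose_symm_add]

/-- existence of a nonzero polynomial controlling the generic value -/
theorem exists_poly {m d : ℕ} (hmd : m ≤ d) {ε : ℝ} (hε : 0 < ε) :
    ∃ c : ℝ, 0 < c ∧ ∀ n r : ℕ, 1 ≤ n → (r : ℝ) ≤ c * (n : ℝ) ^ ((d : ℝ) - m + 1 - ε) →
      ∃ Φ : MvPolynomial (Fin r × Fin (n + 1)) ℂ, Φ ≠ 0 ∧
        ∀ v : Fin r → Fin (n + 1) → ℂ, (∀ i, v i ≠ 0) → eval (fun x => v x.1 x.2) Φ ≠ 0 →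
        (Module.finrank ℂ (homogeneousSubmodule (Fin (n + 1)) ℂ d) : ℤ) -
          Module.finrank ℂ (homogeneousSubmodule (Fin (n + 1)) ℂ d ⊓
            Submodule.restrictScalars ℂ (⨅ i, pointIdeal (v i) ^ m : Ideal _) :
              Submodule ℂ (MvPolynomial (Fin (n + 1)) ℂ))
          = ∑ j ∈ Finset.Icc 1 (d / (d - m + 1)), (-1 : ℤ) ^ (j + 1) * (r.choose j : ℤ) *
              ((n + d - j * (d - m + 1)).choose n : ℤ) := by
  obtain ⟨e, he⟩ : ∃ e, e = d - m + 1 := ⟨_, rfl⟩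
  have he0 : 0 < e := by omega
  have heR : (e : ℝ) = (d : ℝ) - m + 1 := by
    rw [he]; push_cast [Nat.cast_sub hmd]; ring
  obtain ⟨a, ha⟩ : ∃ a : ℕ, a = ⌈1 / ε⌉₊ + 1 := ⟨_, rfl⟩
  have ha0 : 0 < a := by omega
  have haε : 1 / (a : ℝ) ≤ ε := by
    have h1 : 1 / ε ≤ a := by
      rw [ha]; push_cast
      have := Nat.le_ceil (1 / ε)
      linarith
    rw [div_le_iff₀ (by exact_mod_cast ha0)]
    rw [div_le_iff₀ hε] at h1
    linarith
  obtain ⟨C, hC, hdes⟩ := exists_design e (zz d d) d a he0 ha0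
  refine ⟨1 / (C : ℝ), by positivity, ?_⟩
  intro n r hn hr
  rw [← heR] at hr
  have hineq := real_to_nat he0 ha0 hC (δ := (e : ℝ) - ε) (by linarith) hn hr
  obtain ⟨B, hB⟩ := hdes (Fin (n + 1)) r (by rw [Fintype.card_fin]; exact hineq)
  obtain ⟨Φ, h0, hΦ⟩ := generic_of_design he0 hB
  refine ⟨Φ, h0, ?_⟩
  intro v hv hΦv
  rw [inf_eq_K hmd v hv, ← he]
  have h1 := hΦ _ hΦv
  have h2 : (Module.finrank ℂ (homogeneousSubmodule (Fin (n + 1)) ℂ d) : ℤ)
      = gj (Fin (n + 1)) d := by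
    unfold gj
    rw [finrank_Rj]
  rw [h1, h2, Finset.sum_range_succ']
  have h3 : ∑ j ∈ Finset.Icc 1 (d / e), (-1 : ℤ) ^ (j + 1) * (r.choose j : ℤ) *
      ((n + d - j * e).choose n : ℤ) = ∑ l ∈ Finset.range (d / e), (-1 : ℤ) ^ (l + 1 + 1) *
        (r.choose (l + 1) : ℤ) * ((n + d - (l + 1) * e).choose n : ℤ) := by
    rw [← Finset.sum_image (f := fun j => (-1 : ℤ) ^ (j + 1) * (r.choose j : ℤ) *
      ((n + d - j * e).choose n : ℤ)) (g := fun l => l + 1)]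
    · congr 1
      ext j
      simp only [Finset.mem_Icc, Finset.mem_image, Finset.mem_range]
      constructor
      · rintro ⟨h4, h5⟩; exact ⟨j - 1, by omega, by omega⟩
      · rintro ⟨l, hl, rfl⟩; omega
    · intro x _ y _ hxy
      simpa using hxy
  rw [h3]
  have h4 : ∀ l ∈ Finset.range (d / e), (-1 : ℤ) ^ (l + 1 + 1) *
        (r.choose (l + 1) : ℤ) * ((n + d - (l + 1) * e).choose n : ℤ)
      = - ((-1 : ℤ) ^ (l + 1) * (r.choose (l + 1) : ℤ) * gj (Fin (n + 1)) (d - (l + 1) * e)) := by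
    intro l hl
    rw [Finset.mem_range] at hl
    have h5 : (l + 1) * e ≤ d := by
      calc (l + 1) * e ≤ d / e * e := Nat.mul_le_mul_right _ hl
        _ ≤ d := Nat.div_mul_le_self d e
    rw [gj_fin, ← Nat.add_sub_assoc h5]
    ring
  rw [Finset.sum_congr rfl h4, Finset.sum_neg_distrib]
  simp

end
end H350MF
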